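import Pool.Agent.R667.WS.Est

/-! MP_114da7_co: elementary estimates. -/

open scoped ENNReal

namespace Pool.Agent.R667.WS

open R556.CP

/-- `n * rho ^ (sqrt n - c)` is bounded -/
lemma pow_sqrt_bound (rho : ℝ) (h0 : 0 < rho) (h1 : rho < 1) (c : ℕ) :
    ∃ B : ℝ, 0 ≤ B ∧ ∀ n : ℕ, 1 ≤ n → rho ^ (Nat.sqrt n - c) ≤ B * (n : ℝ)⁻¹ := by
  have hlim := tendsto_pow_const_mul_const_pow_of_abs_lt_one 2
    (show |rho| < 1 by rw [abs_of_pos h0]; exact h1)
  obtain ⟨B0, hB0⟩ := hlim.bddAbove_range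
  have hB0' : ∀ s : ℕ, (s : ℝ) ^ 2 * rho ^ s ≤ B0 := fun s => hB0 ⟨s, rfl⟩
  have hB00 : 0 ≤ B0 := by
    have := hB0' 0
    simpa using this
  refine ⟨4 * B0 * (rho⁻¹) ^ c, by positivity, fun n hn => ?_⟩
  set s := Nat.sqrt n with hs
  have hs1 : 1 ≤ s := by
    rw [hs]; exact Nat.sqrt_pos.2 hn
  have hns : n < (s + 1) * (s + 1) := Nat.lt_succ_sqrt n
  have hns2 : (n : ℝ) ≤ 4 * (s : ℝ) ^ 2 := by
    have h3 : n ≤ 4 * s ^ 2 := by nlinarith
    exact_mod_cast h3
  have hpow : rho ^ (s - c) ≤ rho ^ s * (rho⁻¹) ^ c := by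
    by_cases hsc : c ≤ s
    · have : rho ^ s = rho ^ (s - c) * rho ^ c := by
        rw [← pow_add]; congr 1; omega
      rw [this, mul_assoc, ← mul_pow, mul_inv_cancel₀ h0.ne', one_pow, mul_one]
    · have : s - c = 0 := by omega
      rw [this, pow_zero]
      rw [inv_pow]
      have h4 : rho ^ c ≤ rho ^ s := pow_le_pow_of_le_one h0.le h1.le (by omega)
      have h5 : 0 < rho ^ c := by positivity
      rw [← div_eq_mul_inv, le_div_iff₀ h5]
      linarith
  have hn0 : (0 : ℝ) < n := by exact_mod_cast hn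
  rw [← div_eq_mul_inv, le_div_iff₀ hn0]
  calc rho ^ (s - c) * n ≤ (rho ^ s * (rho⁻¹) ^ c) * (4 * (s : ℝ) ^ 2) := by gcongr
    _ = 4 * ((s : ℝ) ^ 2 * rho ^ s) * (rho⁻¹) ^ c := by ring
    _ ≤ 4 * B0 * (rho⁻¹) ^ c := by
      gcongr
      exact hB0' s

lemma abs_sub_le_of_exp {x y e : ℝ} (he : 0 ≤ e) (hx : x ≤ Real.exp e * y)
    (hy : y ≤ Real.exp e * x) (hy0 : 0 ≤ y) : |x - y| ≤ e * Real.exp e * y := by
  have h1 : Real.exp e - 1 ≤ e * Real.exp e := by
    have := Real.add_one_le_exp (-e)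
    have h2 : Real.exp (-e) * Real.exp e = 1 := by rw [← Real.exp_add]; simp
    have h3 : (-e + 1) * Real.exp e ≤ Real.exp (-e) * Real.exp e := by gcongr
    linarith
  have hexp : 1 ≤ Real.exp e := Real.one_le_exp he
  rw [abs_le]
  constructor
  · -- y - x ≤ (1 - exp (-e)) y ≤ (exp e - 1) y
    have h2 : y * Real.exp (-e) ≤ x := by
      have h3 : Real.exp (-e) * Real.exp e = 1 := by rw [← Real.exp_add]; simp
      have h4 : 0 ≤ Real.exp (-e) := (Real.exp_pos _).le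
      calc y * Real.exp (-e) ≤ (Real.exp e * x) * Real.exp (-e) := by gcongr
        _ = x * (Real.exp (-e) * Real.exp e) := by ring
        _ = x := by rw [h3, mul_one]
    have h5 : 1 - Real.exp (-e) ≤ e := by
      have := Real.add_one_le_exp (-e)
      linarith
    have h6 : y - x ≤ e * y := by nlinarith
    have h7 : e * y ≤ e * Real.exp e * y := by
      have : e ≤ e * Real.exp e := by nlinarith
      nlinarith
    linarith
  · have : x - y ≤ (Real.exp e - 1) * y := by linarith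
    nlinarith

end Pool.Agent.R667.WS
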