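import Pool.Agent.R667.WS.Split
import Pool.Agent.R556.CP.D2

/-! MP_114da7_co: uniform estimate of the probability of a separated occurrence set. -/

open MeasureTheory Set Function
open scoped ENNReal unitInterval

namespace Pool.Agent.R667.WS

open R556.CP

noncomputable section

open Classical

variable {K : ℕ} {p : ℕ → ℕ}

lemma Cl.OO {G H : (ℕ → I) → ℝ≥0∞} (hG : Measurable G) (hH : Measurable H) {e : ℝ}
    (h : ∀ X, Cl e (G X) (H X)) (X : ℕ → I) : Cl e (OO K p G X) (OO K p H X) := by
  constructor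
  · rw [← OO_const_mul _ hH]
    exact OO_mono (fun Y => (h Y).1) X
  · rw [← OO_const_mul _ hG]
    exact OO_mono (fun Y => (h Y).2) X

lemma measurable_T {m : ℕ} {G : (ℕ → I) → ℝ≥0∞} (hG : Measurable G) : Measurable (T K p m G) :=
  measurable_LM (measurable_ind_G hG)

/-- uniform estimate -/
theorem V_est {M : ℕ} {rho D : ℝ} (hr0 : 0 < rho) (hr1 : rho < 1) (hD : 0 ≤ D)
    {lam l : ℝ≥0∞} {psi : (ℕ → I) → ℝ≥0∞} (hpsi : Measurable psi)
    (P1 : ∀ N, M ≤ N → ∀ X, Cl (D * rho ^ N) (F K p N X) (lam ^ N * psi X))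
    (P2 : ∀ N, M ≤ N → ∀ X, Cl (D * rho ^ N) (T K p N (OO K p psi) X) (l * (lam ^ N * psi X)))
    {g : ℕ} (hg : M ≤ g) :
    ∀ (a : ℕ) (J : Finset ℕ) (N : ℕ), J.card = a → g ≤ N →
      (∀ j ∈ J, g ≤ j ∧ j + 1 + g ≤ N) → (∀ j ∈ J, ∀ j' ∈ J, j < j' → j + 1 + g ≤ j') →
      ∀ X, Cl ((a + 1) * (D * rho ^ g)) (V K p J N X) (lam ^ (N - a) * l ^ a * psi X) := by
  have hpow : ∀ N, g ≤ N → D * rho ^ N ≤ D * rho ^ g := fun N hN =>
    mul_le_mul_of_nonneg_left (pow_le_pow_of_le_one hr0.le hr1.le hN) hD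
  intro a
  induction a with
  | zero =>
    intro J N hJ hN _ _ X
    have : J = ∅ := Finset.card_eq_zero.1 hJ
    subst this
    rw [V_empty _ _ (by simp)]
    have := (P1 N (hg.trans hN) X).mono (hpow N hN)
    simpa using this
  | succ a ih =>
    intro J N hJ hN h1 h2 X
    have hne : J.Nonempty := Finset.card_pos.1 (by omega)
    set g0 := J.min' hne with hg0
    have hg0J : g0 ∈ J := J.min'_mem hne
    have hmin : ∀ j ∈ J, g0 ≤ j := fun j hj => J.min'_le j hj
    obtain ⟨hgg0, hg0N⟩ := h1 g0 hg0J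
    obtain ⟨N', rfl⟩ : ∃ N', N = g0 + 1 + N' := ⟨N - (g0 + 1), by omega⟩
    set J' : Finset ℕ := (J.erase g0).image (fun j => j - (g0 + 1)) with hJ'
    have hbig : ∀ j ∈ J.erase g0, g0 + 1 ≤ j := by
      intro j hj
      have := hmin j (Finset.mem_of_mem_erase hj)
      have := Finset.ne_of_mem_erase hj
      omega
    have hmem : ∀ j, j ∈ J' ↔ j + (g0 + 1) ∈ J := by
      intro j
      rw [hJ', Finset.mem_image]
      constructor
      · rintro ⟨i, hi, rfl⟩
        rw [Nat.sub_add_cancel (hbig i hi)]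
        exact Finset.mem_of_mem_erase hi
      · intro hj
        exact ⟨j + (g0 + 1), Finset.mem_erase.2 ⟨by omega, hj⟩, by omega⟩
    have hcard : J'.card = a := by
      rw [hJ', Finset.card_image_of_injOn, Finset.card_erase_of_mem hg0J, hJ]
      · omega
      · intro x hx y hy hxy
        have := hbig x hx
        have := hbig y hy
        simp only at hxy
        omega
    have hset : {j | j + (g0 + 1) ∈ (J : Set ℕ)} = (J' : Set ℕ) := by
      ext j
      simp only [Set.mem_ofPred_eq, Finset.mem_coe]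
      exact (hmem j).symm
    have hV : V K p (J : Set ℕ) (g0 + 1 + N') = T K p g0 (OO K p (V K p (J' : Set ℕ) N')) := by
      rw [V_first (J : Set ℕ) g0 N' (fun i hi hiJ => by
        have := hmin i (Finset.mem_coe.1 hiJ); omega) (Finset.mem_coe.2 hg0J), hset]
    rw [hV]
    have hih := ih J' N' hcard (by omega)
      (fun j hj => by
        have h3 := (hmem j).1 hj
        have h4 := h1 _ h3
        have h5 := h2 g0 hg0J _ h3 (by omega)
        constructor <;> omega)
      (fun j hj j' hj' hlt => by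
        have h3 := (hmem j).1 hj
        have h4 := (hmem j').1 hj'
        have := h2 _ h3 _ h4 (by omega)
        omega)
    have hc : Measurable (fun X => lam ^ (N' - a) * l ^ a * psi X) :=
      measurable_const.mul hpsi
    have s1 : ∀ Y, Cl ((a + 1) * (D * rho ^ g)) (OO K p (V K p (J' : Set ℕ) N') Y)
        (lam ^ (N' - a) * l ^ a * OO K p psi Y) := by
      intro Y
      rw [← OO_const_mul _ hpsi]
      exact Cl.OO (measurable_V _ _) hc hih Y
    have s2 : Cl ((a + 1) * (D * rho ^ g)) (T K p g0 (OO K p (V K p (J' : Set ℕ) N')) X)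
        (lam ^ (N' - a) * l ^ a * T K p g0 (OO K p psi) X) := by
      rw [← T_const_mul _ (measurable_OO hpsi)]
      exact Cl.T (measurable_OO (measurable_V _ _)) (measurable_const.mul (measurable_OO hpsi)) s1 X
    have s3 : Cl (D * rho ^ g) (T K p g0 (OO K p psi) X) (l * (lam ^ g0 * psi X)) :=
      (P2 g0 (hg.trans hgg0) X).mono (hpow _ hgg0)
    have s4 := s2.trans (s3.mul_left (lam ^ (N' - a) * l ^ a))
    have hN' : a ≤ N' := by
      -- the `a` elements of `J'` lie in `[0, N')`
      have : J' ⊆ Finset.range N' := by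
        intro j hj
        rw [Finset.mem_range]
        have := h1 _ ((hmem j).1 hj)
        omega
      have := Finset.card_le_card this
      rwa [hcard, Finset.card_range] at this
    have e1 : lam ^ (N' - a) * l ^ a * (l * (lam ^ g0 * psi X))
        = lam ^ (g0 + 1 + N' - (a + 1)) * l ^ (a + 1) * psi X := by
      rw [show g0 + 1 + N' - (a + 1) = (N' - a) + g0 by omega, pow_add, pow_succ]
      ring
    rw [e1] at s4
    refine s4.mono (le_of_eq ?_)
    push_cast
    ring

end

end Pool.Agent.R667.WS
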