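import Mathlib

/-! MP_114da7_co: a permutation with exactly one occurrence at a given place. -/

namespace Pool.Agent.R667.WS

/-- the window `j, ..., j+K` of `f` is ordered like `p` -/
def OccF (K : ℕ) (p : ℕ → ℕ) (f : ℕ → ℤ) (j : ℕ) : Prop :=
  ∀ a < K + 1, ∀ b < K + 1, (f (j + a) < f (j + b) ↔ p a < p b)

lemma exists_fun (K : ℕ) (hK : 1 ≤ K) (p : ℕ → ℕ) (hp : Set.InjOn p (Set.Iio (K + 1))) (i n : ℕ) :
    ∃ f : ℕ → ℤ, Function.Injective f ∧ ∀ j, OccF K p f j ↔ j = i := by
  classical
  obtain ⟨B, hB⟩ : ∃ B : ℕ, ∀ a < K + 1, p a ≤ B :=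
    ⟨(Finset.range (K + 1)).sup p, fun a ha => Finset.le_sup (Finset.mem_range.2 ha)⟩
  have h01 : p 0 ≠ p 1 := fun h => by
    have := hp (by simp) (by simp only [Set.mem_Iio]; omega) h
    omega
  have hKK : p (K - 1) ≠ p K := fun h => by
    have := hp (by simp only [Set.mem_Iio]; omega) (by simp) h
    omega
  let f : ℕ → ℤ := fun j =>
    if j < i then (if p 1 < p 0 then (j : ℤ) - i else (B : ℤ) + i - j)
    else if j ≤ i + K then (p (j - i) : ℤ)
    else (if p K < p (K - 1) then (B : ℤ) + j + 1 else -(j : ℤ) - 1)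
  have fL : ∀ j, j < i → f j = (if p 1 < p 0 then (j : ℤ) - i else (B : ℤ) + i - j) := by
    intro j hj; simp only [f]; rw [if_pos hj]
  have fW : ∀ a, a ≤ K → f (i + a) = (p a : ℤ) := by
    intro a ha
    simp only [f]
    rw [if_neg (by omega), if_pos (by omega), Nat.add_sub_cancel_left]
  have fR : ∀ j, i + K < j → f j = (if p K < p (K - 1) then (B : ℤ) + j + 1 else -(j : ℤ) - 1) := by
    intro j hj; simp only [f]; rw [if_neg (by omega), if_neg (by omega)]
  have hBW : ∀ a, a ≤ K → (p a : ℤ) ≤ B := fun a ha => by exact_mod_cast hB a (by omega)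
  refine ⟨f, ?_, fun j => ⟨fun h => ?_, fun h => ?_⟩⟩
  · intro x y hxy
    -- three zones
    have zone : ∀ z : ℕ, z < i ∨ (∃ a, a ≤ K ∧ z = i + a) ∨ i + K < z := by
      intro z
      by_cases h1 : z < i
      · exact Or.inl h1
      · by_cases h2 : z ≤ i + K
        · exact Or.inr (Or.inl ⟨z - i, by omega, by omega⟩)
        · exact Or.inr (Or.inr (by omega))
    rcases zone x with hx | ⟨a, ha, rfl⟩ | hx <;> rcases zone y with hy | ⟨b, hb, rfl⟩ | hy
    · rw [fL x hx, fL y hy] at hxy
      split_ifs at hxy <;> omega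
    · rw [fL x hx, fW b hb] at hxy
      have := hBW b hb
      split_ifs at hxy <;> omega
    · rw [fL x hx, fR y hy] at hxy
      split_ifs at hxy <;> omega
    · rw [fL y hy, fW a ha] at hxy
      have := hBW a ha
      split_ifs at hxy <;> omega
    · rw [fW a ha, fW b hb] at hxy
      have h1 : p a = p b := by exact_mod_cast hxy
      have := hp (by simp only [Set.mem_Iio]; omega) (by simp only [Set.mem_Iio]; omega) h1
      omega
    · rw [fW a ha, fR y hy] at hxy
      have := hBW a ha
      split_ifs at hxy <;> omega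
    · rw [fL y hy, fR x hx] at hxy
      split_ifs at hxy <;> omega
    · rw [fW b hb, fR x hx] at hxy
      have := hBW b hb
      split_ifs at hxy <;> omega
    · rw [fR x hx, fR y hy] at hxy
      split_ifs at hxy <;> omega
  · by_contra hne
    rcases lt_or_gt_of_ne hne with hlt | hgt
    · -- window starts on the left
      have h1 := h 1 (by omega) 0 (by omega)
      have h2 := h 0 (by omega) 1 (by omega)
      simp only [Nat.add_zero] at h1 h2
      rw [fL j hlt] at h1 h2
      by_cases hj : j + 1 < i
      · rw [fL (j + 1) hj] at h1 h2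
        split_ifs at h1 h2 with hp1
        · push_cast at h1; omega
        · push_cast at h2
          have : p 0 < p 1 := by omega
          omega
      · have hji : j + 1 = i + 0 := by omega
        rw [hji, fW 0 (by omega)] at h1 h2
        have h3 := hBW 0 (by omega)
        split_ifs at h1 h2 with hp1
        · omega
        · have : p 0 < p 1 := by omega
          omega
    · have h1 := h K (by omega) (K - 1) (by omega)
      have h2 := h (K - 1) (by omega) K (by omega)
      rw [fR (j + K) (by omega)] at h1 h2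
      by_cases hj : i + K < j + (K - 1)
      · rw [fR (j + (K - 1)) hj] at h1 h2
        split_ifs at h1 h2 with hp1
        · push_cast at h1; omega
        · have : p (K - 1) < p K := by omega
          push_cast at h2; omega
      · have hji : j + (K - 1) = i + K := by omega
        rw [hji, fW K le_rfl] at h1 h2
        have h3 := hBW K le_rfl
        split_ifs at h1 h2 with hp1
        · omega
        · have : p (K - 1) < p K := by omega
          omega
  · subst h
    intro a ha b hb
    rw [fW a (by omega), fW b (by omega)]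
    exact_mod_cast Iff.rfl

/-- there is a permutation of `n` letters with exactly one occurrence, at the given place -/
lemma exists_perm (K : ℕ) (hK : 1 ≤ K) (p : ℕ → ℕ) (hp : Set.InjOn p (Set.Iio (K + 1))) (i n : ℕ) :
    ∃ w : Equiv.Perm (Fin n), ∀ j, ∀ hj : j + (K + 1) ≤ n,
      ((∀ a, ∀ ha : a < K + 1, ∀ b, ∀ hb : b < K + 1,
        (w ⟨j + a, by omega⟩ < w ⟨j + b, by omega⟩ ↔ p a < p b)) ↔ j = i) := by
  obtain ⟨f, hf, hfo⟩ := exists_fun K hK p hp i n
  let g : Fin n → ℤ := fun x => f x.1
  have hg : Function.Injective g := fun x y h => Fin.ext (hf h)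
  let σ := Tuple.sort g
  have hmono : StrictMono (g ∘ σ) :=
    (Tuple.monotone_sort g).strictMono_of_injective (hg.comp σ.injective)
  have hw : ∀ x y : Fin n, σ⁻¹ x < σ⁻¹ y ↔ g x < g y := by
    intro x y
    rw [← hmono.lt_iff_lt]
    simp [σ]
  refine ⟨σ⁻¹, fun j hj => ?_⟩
  rw [← hfo j]
  unfold OccF
  constructor
  · intro h a ha b hb
    rw [← h a ha b hb, hw]
  · intro h a ha b hb
    rw [← h a ha b hb, hw]

end Pool.Agent.R667.WS
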