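import Pool.Agent.R667.WS.Anal
import Pool.Agent.R667.WS.One
import Pool.Agent.R556.CP.E

/-! MP_114da7_co: asymptotics for separated sets, in terms of `cnt`. -/

open MeasureTheory Set Function
open scoped ENNReal unitInterval

namespace Pool.Agent.R667.WS

open R556.CP

noncomputable section

open Classical

variable {K : ℕ} {p : ℕ → ℕ}

lemma cond_iff_AJ (J : Set ℕ) (N : ℕ) (X : ℕ → I) :
    Cond K p J (K + N) X ↔ AJ K p J N X := by
  unfold Cond AJ
  constructor
  · intro h i hi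
    exact h i (by omega)
  · intro h i hi
    exact h i (by omega)

lemma cnt_V (J : Set ℕ) (N : ℕ) :
    LM (Finset.range K) (V K p J N) (fun _ => 0) =
      (cnt K p J (K + N) : ℝ≥0∞) / ((K + N).factorial : ℝ≥0∞) := by
  rw [← cnt_eq J (K + N) (fun _ => 0)]
  have hu : Finset.range (K + N) = Finset.range K ∪ Finset.Ico K (K + N) := by
    ext x; simp only [Finset.mem_union, Finset.mem_range, Finset.mem_Ico]; omega
  have hd : Disjoint (Finset.range K) (Finset.Ico K (K + N)) := by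
    rw [Finset.disjoint_left]; intro x; simp only [Finset.mem_range, Finset.mem_Ico]; omega
  rw [hu, LM_union (measurable_ind (measurableSet_cond _ _)) hd]
  congr 1
  funext Y
  unfold V
  congr 1
  funext X
  exact (ind_congr (cond_iff_AJ J N X)).symm

/-- exactly one occurrence is possible -/
lemma cnt_one_ne (hK : 1 ≤ K) (hp : Set.InjOn p (Set.Iio (K + 1))) (i n : ℕ) :
    cnt K p {i} n ≠ 0 := by
  obtain ⟨w, hw⟩ := exists_perm K hK p hp i n
  unfold cnt
  rw [Ne, Finset.card_eq_zero, ← Ne, ← Finset.nonempty_iff_ne_empty]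
  refine ⟨w, ?_⟩
  simp only [Finset.mem_filter, Finset.mem_univ, true_and, Set.mem_singleton_iff]
  intro j hj
  rw [← hw j hj]
  constructor
  · intro h a ha b hb
    exact h a ha b hb ⟨j + a, by omega⟩ ⟨j + b, by omega⟩ rfl rfl
  · intro h a ha b hb s t hs ht
    have h1 : s = ⟨j + a, by omega⟩ := Fin.ext hs
    have h2 : t = ⟨j + b, by omega⟩ := Fin.ext ht
    rw [h1, h2]
    exact h a ha b hb

lemma Phi_OO_ne (hK : 1 ≤ K) (hp : Set.InjOn p (Set.Iio (K + 1))) {psi : (ℕ → I) → ℝ≥0∞}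
    (hpsi : Adm K psi) {c : ℝ≥0∞} {M : ℕ} (hM : M = 3 * K + 6)
    (h : ∀ X, F K p M X ≤ c * psi X) : Phi K p (OO K p psi) ≠ 0 := by
  intro h0
  have h1 : Phi K p (OO K p (F K p M)) = 0 := by
    refine le_antisymm ?_ zero_le
    calc Phi K p (OO K p (F K p M)) ≤ Phi K p (OO K p (fun X => c * psi X)) :=
          Phi_mono (OO_mono h)
      _ = Phi K p (fun X => c * OO K p psi X) := by
          congr 1; funext X; exact OO_const_mul c hpsi.meas X
      _ = c * Phi K p (OO K p psi) := Phi_const_mul c (measurable_OO hpsi.meas)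
      _ = 0 := by rw [h0, mul_zero]
  have h2 : ∀ X, T K p M (OO K p (F K p M)) X = 0 := by
    intro X
    refine le_antisymm ?_ zero_le
    have := T_le (K := K) (p := p) (G := OO K p (F K p M)) (measurable_OO (measurable_F M))
      (dep_OO (dep_F M)) X
    rw [h1, mul_zero, ← hM] at this
    exact this
  have h3 : V K p {M} (M + 1 + M) = T K p M (OO K p (F K p M)) := by
    rw [V_first {M} M M (by intro i hi h; simp only [Set.mem_singleton_iff] at h; omega) rfl]
    congr 2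
    rw [V_empty]
    intro i _ h
    simp only [Set.mem_singleton_iff, Set.mem_ofPred_eq] at h
    omega
  have h4 := cnt_V (K := K) (p := p) {M} (M + 1 + M)
  rw [h3, LM_zero_of_forall h2] at h4
  have h5 := h4.symm
  rw [ENNReal.div_eq_zero_iff] at h5
  rcases h5 with h5 | h5
  · exact cnt_one_ne hK hp M _ (by exact_mod_cast h5)
  · exact ENNReal.natCast_ne_top _ h5

/-- separated sets -/
theorem main_sep (hK : 2 ≤ K) (hp : Set.InjOn p (Set.Iio (K + 1))) (a : ℕ) :
    ∃ (D rho : ℝ) (C : ℝ≥0∞), 0 ≤ D ∧ 0 < rho ∧ rho < 1 ∧ C ≠ 0 ∧ C ≠ ∞ ∧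
      ∀ (J : Finset ℕ) (N g : ℕ), 3 * K + 6 ≤ g → J.card = a → g ≤ N →
        (∀ j ∈ J, g ≤ j ∧ j + 1 + g ≤ N) → (∀ j ∈ J, ∀ j' ∈ J, j < j' → j + 1 + g ≤ j') →
        Cl (D * rho ^ g) (cnt K p J (K + N) : ℝ≥0∞) (C * cnt K p ∅ (K + N)) := by
  obtain ⟨D, rho, lam, psi, hD, hr0, hr1, hl0, hlt, hpsi, ⟨B, hB, hpsiB⟩, hF, hG⟩ :=
    asym (p := p) stmtA stmtB hK hp (F_pos (by omega))
  have hPhi0 : Phi K p (OO K p psi) ≠ 0 := by
    refine Phi_OO_ne (by omega) hp hpsi (M := 3 * K + 6) rfl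
      (c := ENNReal.ofReal (Real.exp (D * rho ^ (3 * K + 6))) * lam ^ (3 * K + 6)) (fun X => ?_)
    rw [mul_assoc]
    exact (hF (3 * K + 6) le_rfl X).1
  have hOB : ∀ X, OO K p psi X ≤ B := by
    intro X
    unfold OO
    refine (LM_mono (g := fun _ => B) (fun Y => ?_) X).trans ?_
    · calc ind (OccAt (K + 1) p Y 0) * psi (sh 1 Y) ≤ 1 * B := by
            gcongr
            · exact ind_le_one _
            · exact hpsiB _
        _ = B := one_mul B
    · rw [LM_of_dep (f := fun _ => B) (fun _ _ _ => rfl)]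
  have hPhit : Phi K p (OO K p psi) ≠ ∞ := by
    have h1 : Phi K p (OO K p psi) ≤ B := by
      calc Phi K p (OO K p psi) ≤ Phi K p (fun _ => B * (fun _ => (1 : ℝ≥0∞)) (0 : ℕ)) :=
            Phi_mono (fun X => by simpa using hOB X)
        _ = B * Phi K p (fun _ => 1) := Phi_const_mul (G := fun _ => 1) B measurable_const
        _ ≤ B * 1 := by gcongr; exact Phi_le_one (fun _ => le_rfl)
        _ = B := mul_one B
    exact (h1.trans_lt hB.lt_top).ne
  have hOAdm : Adm K (OO K p psi) := ⟨measurable_OO hpsi.meas, dep_OO hpsi.dep⟩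
  obtain ⟨l, hl0', hlt', hP2⟩ := hG _ hOAdm hPhi0 hPhit
  set Psi : ℝ≥0∞ := LM (Finset.range K) psi (fun _ => 0) with hPsi
  have hf0 : ∀ n : ℕ, (n.factorial : ℝ≥0∞) ≠ 0 := fun n => by exact_mod_cast n.factorial_ne_zero
  have hft : ∀ n : ℕ, (n.factorial : ℝ≥0∞) ≠ ∞ := fun n => ENNReal.natCast_ne_top _
  have hLM : ∀ c : ℝ≥0∞, LM (Finset.range K) (fun X => c * psi X) (fun _ => 0) = c * Psi :=
    fun c => LM_const_mul c hpsi.meas _
  refine ⟨(a + 2) * D, rho, l ^ a / lam ^ a, by positivity, hr0, hr1,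
    ENNReal.div_ne_zero.2 ⟨pow_ne_zero _ hl0', ENNReal.pow_ne_top hlt⟩,
    ENNReal.div_ne_top (ENNReal.pow_ne_top hlt') (pow_ne_zero _ hl0), ?_⟩
  intro J N g hg hJ hN h1 h2
  have haN : a ≤ N := by
    have : J ⊆ Finset.range N := by
      intro j hj
      rw [Finset.mem_range]
      have := (h1 j hj).2
      omega
    have := Finset.card_le_card this
    rwa [hJ, Finset.card_range] at this
  have est := V_est (M := 3 * K + 6) hr0 hr1 hD hpsi.meas hF hP2 hg a J N hJ hN h1 h2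
  have a1 : Cl ((a + 1) * (D * rho ^ g))
      ((cnt K p J (K + N) : ℝ≥0∞) / ((K + N).factorial : ℝ≥0∞)) (lam ^ (N - a) * l ^ a * Psi) := by
    rw [← cnt_V, ← hLM]
    exact Cl.LM (measurable_V _ _) (measurable_const.mul hpsi.meas) est _
  have a2 : Cl (D * rho ^ g)
      ((cnt K p ∅ (K + N) : ℝ≥0∞) / ((K + N).factorial : ℝ≥0∞)) (lam ^ N * Psi) := by
    rw [← cnt_V, ← hLM]
    refine Cl.LM (measurable_V _ _) (measurable_const.mul hpsi.meas) (fun X => ?_) _
    rw [V_empty _ _ (by simp)]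
    exact (hF N (hg.trans hN) X).mono
      (mul_le_mul_of_nonneg_left (pow_le_pow_of_le_one hr0.le hr1.le hN) hD)
  have b1 := a1.mul_left ((K + N).factorial : ℝ≥0∞)
  have b2 := (a2.mul_left ((K + N).factorial : ℝ≥0∞)).symm
  rw [ENNReal.mul_div_cancel (hf0 _) (hft _)] at b1 b2
  have b3 := b2.mul_left (l ^ a / lam ^ a)
  have e : l ^ a / lam ^ a * (((K + N).factorial : ℝ≥0∞) * (lam ^ N * Psi)) =
      ((K + N).factorial : ℝ≥0∞) * (lam ^ (N - a) * l ^ a * Psi) := by
    have e1 : lam ^ N = lam ^ a * lam ^ (N - a) := by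
      rw [← pow_add]; congr 1; omega
    calc _ = ((K + N).factorial : ℝ≥0∞) * ((l ^ a / lam ^ a * lam ^ a) * lam ^ (N - a) * Psi) := by
          rw [e1]; ring
      _ = _ := by
        rw [ENNReal.div_mul_cancel (pow_ne_zero _ hl0) (ENNReal.pow_ne_top hlt)]; ring
  rw [e] at b3
  refine (b1.trans b3).mono (le_of_eq ?_)
  ring

end

end Pool.Agent.R667.WS
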