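import Pool.Agent.R556.CP.H

/-! MP_114da7_co: splitting of the probability of a prescribed occurrence set. -/

open MeasureTheory Set Function
open scoped ENNReal unitInterval

namespace Pool.Agent.R667.WS

open R556.CP

noncomputable section

open Classical

variable {K : ℕ} {p : ℕ → ℕ}

/-- the occurrences among the starts `0, ..., m-1` are exactly those in `J` -/
def AJ (K : ℕ) (p : ℕ → ℕ) (J : Set ℕ) (m : ℕ) (X : ℕ → I) : Prop :=
  ∀ i < m, (OccAt (K + 1) p X i ↔ i ∈ J)

/-- transfer operator with prescribed occurrences -/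
def TJ (K : ℕ) (p : ℕ → ℕ) (J : Set ℕ) (m : ℕ) (G : (ℕ → I) → ℝ≥0∞) : (ℕ → I) → ℝ≥0∞ :=
  LM (Finset.Ico K (K + m)) (fun X => ind (AJ K p J m X) * G (sh m X))

/-- probability of the occurrence set `J` in `N` steps -/
def V (K : ℕ) (p : ℕ → ℕ) (J : Set ℕ) (N : ℕ) : (ℕ → I) → ℝ≥0∞ :=
  LM (Finset.Ico K (K + N)) (fun X => ind (AJ K p J N X))

/-- one step with an occurrence -/
def OO (K : ℕ) (p : ℕ → ℕ) (G : (ℕ → I) → ℝ≥0∞) : (ℕ → I) → ℝ≥0∞ :=
  LM {K} (fun X => ind (OccAt (K + 1) p X 0) * G (sh 1 X))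

lemma measurableSet_AJ (J : Set ℕ) (m : ℕ) : MeasurableSet {X | AJ K p J m X} := by
  have : {X | AJ K p J m X} = ⋂ i : ℕ, ⋂ _ : i < m, {X | OccAt (K + 1) p X i ↔ i ∈ J} := by
    ext X; simp [AJ]
  rw [this]
  refine MeasurableSet.iInter fun i => MeasurableSet.iInter fun _ => ?_
  by_cases h : i ∈ J
  · simp only [h, iff_true]
    exact measurableSet_occAt _ _ _
  · simp only [h, iff_false]
    exact (measurableSet_occAt _ _ _).compl

lemma dep_AJ (J : Set ℕ) (m : ℕ) : Dep (fun X => ind (AJ K p J m X)) (Set.Iio (K + m)) := by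
  intro X Y h
  refine ind_congr ?_
  unfold AJ
  refine forall₂_congr fun i hi => ?_
  rw [occAt_congr (X := X) (Y := Y) (i := i) (j := i)]
  intro a ha
  exact h _ (by simp only [Set.mem_Iio]; omega)

lemma AJ_split (J : Set ℕ) (m N : ℕ) (X : ℕ → I) :
    AJ K p J (m + N) X ↔ AJ K p J m X ∧ AJ K p {j | j + m ∈ J} N (sh m X) := by
  have hsh : ∀ i, OccAt (K + 1) p (sh m X) i ↔ OccAt (K + 1) p X (i + m) := fun i =>
    occAt_congr fun a _ => by
      show X (i + a + m) = X (i + m + a)
      congr 1; omega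
  constructor
  · intro h
    refine ⟨fun i hi => h i (by omega), fun i hi => ?_⟩
    rw [hsh]
    exact h (i + m) (by omega)
  · rintro ⟨h1, h2⟩ i hi
    by_cases him : i < m
    · exact h1 i him
    · have := h2 (i - m) (by omega)
      rw [hsh, Nat.sub_add_cancel (by omega)] at this
      rw [this]
      show i - m + m ∈ J ↔ i ∈ J
      rw [Nat.sub_add_cancel (by omega)]

lemma measurable_V (J : Set ℕ) (N : ℕ) : Measurable (V K p J N) :=
  measurable_LM (measurable_ind (measurableSet_AJ _ _))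

lemma dep_V (J : Set ℕ) (N : ℕ) : Dep (V K p J N) (Set.Iio K) := by
  have := (dep_AJ (K := K) (p := p) J N).LM (s := Finset.Ico K (K + N))
  refine this.mono fun i hi => ?_
  have h1 : i < K + N := hi.1
  have h2 : ¬ (K ≤ i ∧ i < K + N) := fun h => hi.2 (by simpa using h)
  show i < K
  omega

lemma V_split (J : Set ℕ) (m N : ℕ) :
    V K p J (m + N) = TJ K p J m (V K p {j | j + m ∈ J} N) := by
  have hu : Finset.Ico K (K + (m + N)) = Finset.Ico K (K + m) ∪ Finset.Ico (K + m) (K + N + m) := by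
    ext x; simp only [Finset.mem_union, Finset.mem_Ico]; omega
  have hd : Disjoint (Finset.Ico K (K + m)) (Finset.Ico (K + m) (K + N + m)) := by
    rw [Finset.disjoint_left]; intro x; simp only [Finset.mem_Ico]; omega
  funext X
  unfold V
  rw [hu, LM_union (measurable_ind (measurableSet_AJ _ _)) hd]
  unfold TJ
  congr 1
  funext Y
  have e1 : (fun X => ind (AJ K p J (m + N) X)) =
      fun X => ind (AJ K p J m X) * ind (AJ K p {j | j + m ∈ J} N (sh m X)) := by
    funext Z
    rw [← ind_and]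
    exact ind_congr (AJ_split J m N Z)
  rw [e1, LM_mul_left]
  · congr 1
    rw [← image_add_Ico, LM_shift (f := fun X => ind (AJ K p {j | j + m ∈ J} N X))
      (measurable_ind (measurableSet_AJ _ _))]
  · refine (dep_AJ (K := K) (p := p) J m).mono fun i hi => ?_
    have : i < K + m := hi
    simp only [Set.mem_ofPred_eq, Finset.mem_Ico]
    omega
  · exact (measurable_ind (measurableSet_AJ _ _)).comp (measurable_sh m)

lemma AJ_noOcc (J : Set ℕ) (m : ℕ) (hJ : ∀ i < m, i ∉ J) (X : ℕ → I) :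
    AJ K p J m X ↔ NoOcc (K + 1) p 0 (K + m) X := by
  constructor
  · intro h i _ h2 h3
    exact hJ i (by omega) ((h i (by omega)).1 h3)
  · intro h i hi
    constructor
    · intro h3
      exact absurd h3 (h i (by omega) (by omega))
    · intro h3
      exact absurd h3 (hJ i hi)

lemma TJ_eq_T (J : Set ℕ) (m : ℕ) (hJ : ∀ i < m, i ∉ J) (G : (ℕ → I) → ℝ≥0∞) :
    TJ K p J m G = T K p m G := by
  unfold TJ T
  congr 1
  funext X
  rw [ind_congr (AJ_noOcc J m hJ X)]

lemma TJ_eq_OO (J : Set ℕ) (hJ : 0 ∈ J) (G : (ℕ → I) → ℝ≥0∞) :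
    TJ K p J 1 G = OO K p G := by
  unfold TJ OO
  have : Finset.Ico K (K + 1) = {K} := by
    ext x; simp only [Finset.mem_Ico, Finset.mem_singleton]; omega
  rw [this]
  congr 1
  funext X
  congr 1
  refine ind_congr ?_
  constructor
  · intro h
    exact (h 0 (by omega)).2 hJ
  · intro h i hi
    have : i = 0 := by omega
    subst this
    exact ⟨fun _ => hJ, fun _ => h⟩

lemma V_empty (J : Set ℕ) (N : ℕ) (hJ : ∀ i < N, i ∉ J) : V K p J N = F K p N := by
  unfold V F
  congr 1
  funext X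
  rw [ind_congr (AJ_noOcc J N hJ X)]

/-- the main splitting: first occurrence at step `g` -/
lemma V_first (J : Set ℕ) (g N : ℕ) (hJ : ∀ i < g, i ∉ J) (hg : g ∈ J) :
    V K p J (g + 1 + N) = T K p g (OO K p (V K p {j | j + (g + 1) ∈ J} N)) := by
  rw [show g + 1 + N = g + (1 + N) by ring, V_split, TJ_eq_T J g hJ, V_split, TJ_eq_OO]
  · congr 3
    ext j
    show j + 1 + g ∈ J ↔ j + (g + 1) ∈ J
    rw [show j + 1 + g = j + (g + 1) by ring]
  · show 0 + g ∈ J
    rwa [zero_add]

lemma OO_mono {G H : (ℕ → I) → ℝ≥0∞} (h : ∀ X, G X ≤ H X) (X : ℕ → I) :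
    OO K p G X ≤ OO K p H X := by
  unfold OO
  exact LM_mono (fun Y => by gcongr; exact h _) X

lemma measurable_OO {G : (ℕ → I) → ℝ≥0∞} (hG : Measurable G) : Measurable (OO K p G) :=
  measurable_LM ((measurable_ind (measurableSet_occAt _ _ _)).mul (hG.comp (measurable_sh 1)))

lemma OO_const_mul {G : (ℕ → I) → ℝ≥0∞} (c : ℝ≥0∞) (hG : Measurable G) (X : ℕ → I) :
    OO K p (fun X => c * G X) X = c * OO K p G X := by
  unfold OO
  have hm : Measurable (fun X : ℕ → I => ind (OccAt (K + 1) p X 0) * G (sh 1 X)) :=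
    (measurable_ind (measurableSet_occAt _ _ _)).mul (hG.comp (measurable_sh 1))
  rw [← LM_const_mul c hm]
  congr 1
  funext Y
  ring

lemma dep_OO {G : (ℕ → I) → ℝ≥0∞} (hG : Dep G (Set.Iio K)) :
    Dep (OO K p G) (Set.Iio K) := by
  have h1 : Dep (fun X => ind (OccAt (K + 1) p X 0) * G (sh 1 X)) (Set.Iio (K + 1)) := by
    refine Dep.mul ?_ ((dep_sh hG 1).mono ?_)
    · intro X Y h
      refine ind_congr (occAt_congr fun a ha => ?_)
      exact h _ (by simp only [Set.mem_Iio]; omega)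
    · intro i hi
      have h1 := hi.1
      have h2 := hi.2
      simp only [Set.mem_Iio]; omega
  have := h1.LM (s := ({K} : Finset ℕ))
  refine this.mono fun i hi => ?_
  have h2 : i < K + 1 := hi.1
  have h3 : ¬ i = K := fun h => hi.2 (by simpa using h)
  show i < K
  omega

end

end Pool.Agent.R667.WS
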